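import Pool.Agent.V8H84.SF.Defs

/-!
# Hodge numbers in dimension at most five
-/

set_option autoImplicit false

namespace Pool.Agent.V8H84.SF

open Pool.Agent.W539.DI Finset

/-- The Hodge numbers in terms of those in a fundamental domain. -/
theorem symm_all {n : ℕ} (Z : KRing n) (p q : ℤ) (k : ℕ) (h : p + q + k = n) :
    Z.h (p + k) (q + k) = Z.h p q ∧ Z.h (q + k) (p + k) = Z.h p q ∧ Z.h q p = Z.h p q := by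
  refine ⟨(Z.h_symm k h).symm, ?_, Z.h_swap q p⟩
  rw [← Z.h_swap (p + k) (q + k)]
  exact (Z.h_symm k h).symm

theorem two_all {X Y : KRing 2} (Φ : FM X Y) (h10 : X.h 1 0 = Y.h 1 0) (p q : ℤ) :
    X.h p q = Y.h p q := by
  by_cases hout : p < 0 ∨ q < 0 ∨ ((2 : ℕ) : ℤ) < p ∨ ((2 : ℕ) : ℤ) < q
  · rw [X.h_zero hout, Y.h_zero hout]
  push_cast at hout
  obtain ⟨-, a2⟩ := Φ.hodge_sums 1 1 rfl
  obtain ⟨-, b2⟩ := Φ.hodge_sums 2 0 rfl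
  rw [X.sum_first _ _ (by norm_num) (by norm_num), Y.sum_first _ _ (by norm_num) (by norm_num)]
    at a2 b2
  norm_num at a2 b2
  have z1 : ∀ Z : KRing 2, Z.h (-1) (-1) = 0 := fun Z => Z.h_neg (by norm_num)
  have z2 : ∀ Z : KRing 2, Z.h 0 (-2) = 0 := fun Z => Z.h_neg (by norm_num)
  rw [z1, z1] at a2
  rw [z2, z2] at b2
  have s : ∀ Z : KRing 2, Z.h 2 2 = Z.h 0 0 ∧ Z.h 2 1 = Z.h 1 0 ∧ Z.h 1 2 = Z.h 1 0 ∧
      Z.h 0 1 = Z.h 1 0 ∧ Z.h 0 2 = Z.h 2 0 := fun Z => by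
    have e1 := symm_all Z 0 0 2 (by norm_num)
    have e2 := symm_all Z 1 0 1 (by norm_num)
    have e3 := symm_all Z 2 0 0 (by norm_num)
    norm_num at e1 e2 e3
    exact ⟨e1, e2.1, e2.2.1, e2.2.2, e3⟩
  obtain ⟨x1, x2, x3, x4, x5⟩ := s X
  obtain ⟨y1, y2, y3, y4, y5⟩ := s Y
  have c1 := X.h00
  have c2 := Y.h00
  have hp0 : 0 ≤ p := by omega
  have hq0 : 0 ≤ q := by omega
  have hp4 : p ≤ 2 := by omega
  have hq4 : q ≤ 2 := by omega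
  interval_cases p <;> interval_cases q <;> omega

theorem three_all {X Y : KRing 3} (Φ : FM X Y) (p q : ℤ) : X.h p q = Y.h p q := by
  by_cases hout : p < 0 ∨ q < 0 ∨ ((3 : ℕ) : ℤ) < p ∨ ((3 : ℕ) : ℤ) < q
  · rw [X.h_zero hout, Y.h_zero hout]
  push_cast at hout
  obtain ⟨a1, a2⟩ := Φ.hodge_sums 2 1 rfl
  obtain ⟨-, b2⟩ := Φ.hodge_sums 3 0 rfl
  rw [X.sum_first _ _ (by norm_num) (by norm_num), Y.sum_first _ _ (by norm_num) (by norm_num)]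
    at a1 a2 b2
  norm_num at a1 a2 b2
  have z1 : ∀ Z : KRing 3, Z.h 0 (-1) = 0 := fun Z => Z.h_neg (by norm_num)
  have z2 : ∀ Z : KRing 3, Z.h 1 (-2) = 0 := fun Z => Z.h_neg (by norm_num)
  rw [z1, z1] at a2
  rw [z2, z2] at b2
  have t0 := Φ.total_all 0 0 {0, 1, 2, 3} (by
    intro k hk
    simp only [Finset.mem_insert, Finset.mem_singleton] at hk
    push_cast
    omega)
  have t2 := Φ.total_all 2 0 {0, 1} (by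
    intro k hk
    simp only [Finset.mem_insert, Finset.mem_singleton] at hk
    push_cast
    omega)
  rw [Finset.sum_insert (by decide), Finset.sum_insert (by decide), Finset.sum_insert (by decide),
    Finset.sum_singleton, Finset.sum_insert (by decide), Finset.sum_insert (by decide),
    Finset.sum_insert (by decide), Finset.sum_singleton] at t0
  rw [Finset.sum_insert (by decide), Finset.sum_singleton, Finset.sum_insert (by decide),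
    Finset.sum_singleton] at t2
  norm_num at t0 t2
  have s : ∀ Z : KRing 3, Z.h 3 3 = Z.h 0 0 ∧ Z.h 2 2 = Z.h 1 1 ∧ Z.h 3 2 = Z.h 1 0 ∧
      Z.h 2 3 = Z.h 1 0 ∧ Z.h 0 1 = Z.h 1 0 ∧ Z.h 3 1 = Z.h 2 0 ∧ Z.h 1 3 = Z.h 2 0 ∧
      Z.h 0 2 = Z.h 2 0 ∧ Z.h 1 2 = Z.h 2 1 ∧ Z.h 0 3 = Z.h 3 0 := fun Z => by
    have e1 := symm_all Z 0 0 3 (by norm_num)
    have e2 := symm_all Z 1 1 1 (by norm_num)
    have e3 := symm_all Z 1 0 2 (by norm_num)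
    have e4 := symm_all Z 2 0 1 (by norm_num)
    have e5 := symm_all Z 2 1 0 (by norm_num)
    have e6 := symm_all Z 3 0 0 (by norm_num)
    norm_num at e1 e2 e3 e4 e5 e6
    exact ⟨e1, e2, e3.1, e3.2.1, e3.2.2, e4.1, e4.2.1, e4.2.2, e5, e6⟩
  obtain ⟨x1, x2, x3, x4, x5, x6, x7, x8, x9, x10⟩ := s X
  obtain ⟨y1, y2, y3, y4, y5, y6, y7, y8, y9, y10⟩ := s Y
  have c1 := X.h00
  have c2 := Y.h00
  have hp0 : 0 ≤ p := by omega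
  have hq0 : 0 ≤ q := by omega
  have hp4 : p ≤ 3 := by omega
  have hq4 : q ≤ 3 := by omega
  interval_cases p <;> interval_cases q <;> omega

/-- The symmetries in dimension five. -/
theorem symm_five (Z : KRing 5) :
    (Z.h 5 5 = Z.h 0 0 ∧ Z.h 4 4 = Z.h 1 1 ∧ Z.h 3 3 = Z.h 2 2) ∧
    (Z.h 5 4 = Z.h 1 0 ∧ Z.h 4 5 = Z.h 1 0 ∧ Z.h 0 1 = Z.h 1 0) ∧
    (Z.h 5 3 = Z.h 2 0 ∧ Z.h 3 5 = Z.h 2 0 ∧ Z.h 0 2 = Z.h 2 0) ∧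
    (Z.h 5 2 = Z.h 3 0 ∧ Z.h 2 5 = Z.h 3 0 ∧ Z.h 0 3 = Z.h 3 0) ∧
    (Z.h 5 1 = Z.h 4 0 ∧ Z.h 1 5 = Z.h 4 0 ∧ Z.h 0 4 = Z.h 4 0) ∧
    (Z.h 4 3 = Z.h 2 1 ∧ Z.h 3 4 = Z.h 2 1 ∧ Z.h 1 2 = Z.h 2 1) ∧
    (Z.h 4 2 = Z.h 3 1 ∧ Z.h 2 4 = Z.h 3 1 ∧ Z.h 1 3 = Z.h 3 1) ∧
    Z.h 0 5 = Z.h 5 0 ∧ Z.h 1 4 = Z.h 4 1 ∧ Z.h 2 3 = Z.h 3 2 := by
  have e1 := symm_all Z 0 0 5 (by norm_num)
  have e2 := symm_all Z 1 1 3 (by norm_num)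
  have e3 := symm_all Z 2 2 1 (by norm_num)
  have e4 := symm_all Z 1 0 4 (by norm_num)
  have e5 := symm_all Z 2 0 3 (by norm_num)
  have e6 := symm_all Z 3 0 2 (by norm_num)
  have e7 := symm_all Z 4 0 1 (by norm_num)
  have e8 := symm_all Z 2 1 2 (by norm_num)
  have e9 := symm_all Z 3 1 1 (by norm_num)
  have f1 := symm_all Z 5 0 0 (by norm_num)
  have f2 := symm_all Z 4 1 0 (by norm_num)
  have f3 := symm_all Z 3 2 0 (by norm_num)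
  norm_num at e1 e2 e3 e4 e5 e6 e7 e8 e9 f1 f2 f3
  exact ⟨⟨e1, e2, e3⟩, e4, e5, e6, e7, e8, e9, f1, f2, f3⟩

theorem chi_int {X Y : KRing 5} (hchi : ∑ q ∈ range (5 + 1), (-1 : ℂ) ^ q * (X.h 0 q : ℂ) =
      ∑ q ∈ range (5 + 1), (-1 : ℂ) ^ q * (Y.h 0 q : ℂ)) :
    ∑ q ∈ range (5 + 1), (-1 : ℤ) ^ q * (X.h 0 q : ℤ) =
      ∑ q ∈ range (5 + 1), (-1 : ℤ) ^ q * (Y.h 0 q : ℤ) := by
  have : ((∑ q ∈ range (5 + 1), (-1 : ℤ) ^ q * (X.h 0 q : ℤ) : ℤ) : ℂ) =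
      ((∑ q ∈ range (5 + 1), (-1 : ℤ) ^ q * (Y.h 0 q : ℤ) : ℤ) : ℂ) := by
    push_cast
    exact hchi
  exact_mod_cast this

theorem lw_cast (X : KRing 5) : ((∑ p ∈ range (5 + 1), ∑ q ∈ range (5 + 1),
        (-1 : ℤ) ^ (p + q) * (2 * (p : ℤ) - 5) ^ 2 * (X.h p q : ℤ) : ℤ) : ℂ) =
      4 * ∑ p ∈ range (5 + 1), ∑ q ∈ range (5 + 1),
        (-1 : ℂ) ^ (p + q) * ((p : ℂ) - (5 : ℕ) / 2) ^ 2 * (X.h p q : ℂ) := by
  push_cast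
  rw [Finset.mul_sum]
  refine Finset.sum_congr rfl fun p _ => ?_
  rw [Finset.mul_sum]
  refine Finset.sum_congr rfl fun q _ => ?_
  ring

theorem lw_int {X Y : KRing 5} (hlw : ∑ p ∈ range (5 + 1), ∑ q ∈ range (5 + 1),
        (-1 : ℂ) ^ (p + q) * ((p : ℂ) - (5 : ℕ) / 2) ^ 2 * (X.h p q : ℂ) =
      ∑ p ∈ range (5 + 1), ∑ q ∈ range (5 + 1),
        (-1 : ℂ) ^ (p + q) * ((p : ℂ) - (5 : ℕ) / 2) ^ 2 * (Y.h p q : ℂ)) :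
    ∑ p ∈ range (5 + 1), ∑ q ∈ range (5 + 1),
        (-1 : ℤ) ^ (p + q) * (2 * (p : ℤ) - 5) ^ 2 * (X.h p q : ℤ) =
    ∑ p ∈ range (5 + 1), ∑ q ∈ range (5 + 1),
        (-1 : ℤ) ^ (p + q) * (2 * (p : ℤ) - 5) ^ 2 * (Y.h p q : ℤ) := by
  have h1 := lw_cast X
  rw [hlw, ← lw_cast Y] at h1
  exact_mod_cast h1

theorem sum6 (f : ℕ → ℤ) : ∑ k ∈ range (5 + 1), f k = f 0 + f 1 + f 2 + f 3 + f 4 + f 5 := by
  simp only [Finset.sum_range_succ, Finset.sum_range_zero, zero_add]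

theorem chi_expand (X : KRing 5) : ∑ q ∈ range (5 + 1), (-1 : ℤ) ^ q * (X.h 0 q : ℤ) =
    (X.h 0 0 : ℤ) - X.h 1 0 + X.h 2 0 - X.h 3 0 + X.h 4 0 - X.h 5 0 := by
  obtain ⟨⟨x1, x2, x3⟩, ⟨x4, x5, x6⟩, ⟨x7, x8, x9⟩, ⟨x10, x11, x12⟩, ⟨x13, x14, x15⟩,
    ⟨x16, x17, x18⟩, ⟨x19, x20, x21⟩, x22, x23, x24⟩ := symm_five X
  rw [sum6]
  push_cast
  norm_num
  rw [x6, x9, x12, x15, x22]
  ring

theorem lw_expand (X : KRing 5) : ∑ p ∈ range (5 + 1), ∑ q ∈ range (5 + 1),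
        (-1 : ℤ) ^ (p + q) * (2 * (p : ℤ) - 5) ^ 2 * (X.h p q : ℤ) =
    50 * (X.h 0 0 : ℤ) + 18 * X.h 1 1 + 2 * X.h 2 2 - 68 * X.h 1 0 + 52 * X.h 2 0 -
      52 * X.h 3 0 + 68 * X.h 4 0 - 50 * X.h 5 0 - 20 * X.h 2 1 + 20 * X.h 3 1 -
      18 * X.h 4 1 - 2 * X.h 3 2 := by
  obtain ⟨⟨x1, x2, x3⟩, ⟨x4, x5, x6⟩, ⟨x7, x8, x9⟩, ⟨x10, x11, x12⟩, ⟨x13, x14, x15⟩,
    ⟨x16, x17, x18⟩, ⟨x19, x20, x21⟩, x22, x23, x24⟩ := symm_five X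
  simp only [sum6]
  push_cast
  norm_num
  simp only [x1, x2, x3, x4, x5, x6, x7, x8, x9, x10, x11, x12, x13, x14, x15, x16, x17, x18, x19,
    x20, x21, x22, x23, x24]
  ring

/-- The Hodge numbers in a fundamental domain determine all the others. -/
theorem of_domain {X Y : KRing 5} (k10 : X.h 1 0 = Y.h 1 0) (k20 : X.h 2 0 = Y.h 2 0)
    (k30 : X.h 3 0 = Y.h 3 0) (k40 : X.h 4 0 = Y.h 4 0) (k50 : X.h 5 0 = Y.h 5 0)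
    (k11 : X.h 1 1 = Y.h 1 1) (k21 : X.h 2 1 = Y.h 2 1) (k31 : X.h 3 1 = Y.h 3 1)
    (k41 : X.h 4 1 = Y.h 4 1) (k22 : X.h 2 2 = Y.h 2 2) (k32 : X.h 3 2 = Y.h 3 2) (p q : ℤ) :
    X.h p q = Y.h p q := by
  by_cases hout : p < 0 ∨ q < 0 ∨ ((5 : ℕ) : ℤ) < p ∨ ((5 : ℕ) : ℤ) < q
  · rw [X.h_zero hout, Y.h_zero hout]
  push_cast at hout
  have k00 : X.h 0 0 = Y.h 0 0 := by rw [X.h00, Y.h00]
  obtain ⟨⟨x1, x2, x3⟩, ⟨x4, x5, x6⟩, ⟨x7, x8, x9⟩, ⟨x10, x11, x12⟩, ⟨x13, x14, x15⟩,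
    ⟨x16, x17, x18⟩, ⟨x19, x20, x21⟩, x22, x23, x24⟩ := symm_five X
  obtain ⟨⟨y1, y2, y3⟩, ⟨y4, y5, y6⟩, ⟨y7, y8, y9⟩, ⟨y10, y11, y12⟩, ⟨y13, y14, y15⟩,
    ⟨y16, y17, y18⟩, ⟨y19, y20, y21⟩, y22, y23, y24⟩ := symm_five Y
  have hp0 : 0 ≤ p := by omega
  have hq0 : 0 ≤ q := by omega
  have hp4 : p ≤ 5 := by omega
  have hq4 : q ≤ 5 := by omega
  clear hout
  interval_cases p <;> interval_cases q <;>
    simp only [x1, x2, x3, x4, x5, x6, x7, x8, x9, x10, x11, x12, x13, x14, x15, x16, x17, x18,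
      x19, x20, x21, x22, x23, x24, y1, y2, y3, y4, y5, y6, y7, y8, y9, y10, y11, y12, y13, y14,
      y15, y16, y17, y18, y19, y20, y21, y22, y23, y24, k00, k10, k20, k30, k40, k50, k11, k21,
      k31, k41, k22, k32]

theorem euler_expand (X : KRing 5) : ∑ p ∈ range (5 + 1), ∑ q ∈ range (5 + 1),
        (-1 : ℤ) ^ (p + q) * (X.h p q : ℤ) =
    2 * (X.h 0 0 : ℤ) + 2 * X.h 1 1 + 2 * X.h 2 2 - 4 * X.h 1 0 + 4 * X.h 2 0 -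
      4 * X.h 3 0 + 4 * X.h 4 0 - 2 * X.h 5 0 - 4 * X.h 2 1 + 4 * X.h 3 1 -
      2 * X.h 4 1 - 2 * X.h 3 2 := by
  obtain ⟨⟨x1, x2, x3⟩, ⟨x4, x5, x6⟩, ⟨x7, x8, x9⟩, ⟨x10, x11, x12⟩, ⟨x13, x14, x15⟩,
    ⟨x16, x17, x18⟩, ⟨x19, x20, x21⟩, x22, x23, x24⟩ := symm_five X
  simp only [sum6]
  push_cast
  norm_num
  simp only [x1, x2, x3, x4, x5, x6, x7, x8, x9, x10, x11, x12, x13, x14, x15, x16, x17, x18, x19,
    x20, x21, x22, x23, x24]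
  ring

/-- The relations between the Hodge numbers of derived equivalent fivefolds. -/
theorem five_rel {X Y : KRing 5} (Φ : FM X Y) (h10 : X.h 1 0 = Y.h 1 0) :
    X.h 3 0 = Y.h 3 0 ∧ X.h 4 0 = Y.h 4 0 ∧ X.h 5 0 = Y.h 5 0 ∧ X.h 4 1 = Y.h 4 1 ∧
    X.h 2 1 = Y.h 2 1 ∧ X.h 3 2 = Y.h 3 2 ∧ X.h 2 0 + X.h 3 1 = Y.h 2 0 + Y.h 3 1 ∧
    X.h 1 1 + X.h 2 2 = Y.h 1 1 + Y.h 2 2 := by
  obtain ⟨a1, a2⟩ := Φ.hodge_sums 3 2 rfl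
  obtain ⟨b1, b2⟩ := Φ.hodge_sums 4 1 rfl
  obtain ⟨-, c2⟩ := Φ.hodge_sums 5 0 rfl
  rw [X.sum_first _ _ (by norm_num) (by norm_num), Y.sum_first _ _ (by norm_num) (by norm_num)]
    at a1 a2 b1 b2 c2
  norm_num at a1 a2 b1 b2 c2
  have z1 : ∀ Z : KRing 5, Z.h 2 (-1) = 0 := fun Z => Z.h_neg (by norm_num)
  have z2 : ∀ Z : KRing 5, Z.h 3 (-2) = 0 := fun Z => Z.h_neg (by norm_num)
  rw [z1, z1] at b2
  rw [z2, z2] at c2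
  have t0 := Φ.total_all 0 0 {0, 1, 2, 3, 4, 5} (by
    intro k hk
    simp only [Finset.mem_insert, Finset.mem_singleton] at hk
    push_cast
    omega)
  have t2 := Φ.total_all 2 0 {0, 1, 2, 3} (by
    intro k hk
    simp only [Finset.mem_insert, Finset.mem_singleton] at hk
    push_cast
    omega)
  have t4 := Φ.total_all 4 0 {0, 1} (by
    intro k hk
    simp only [Finset.mem_insert, Finset.mem_singleton] at hk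
    push_cast
    omega)
  have s6 : ∀ f : ℤ → ℕ, ∑ k ∈ ({0, 1, 2, 3, 4, 5} : Finset ℤ), f k =
      f 0 + f 1 + f 2 + f 3 + f 4 + f 5 := fun f => by
    rw [Finset.sum_insert (by decide), Finset.sum_insert (by decide), Finset.sum_insert (by decide),
      Finset.sum_insert (by decide), Finset.sum_insert (by decide), Finset.sum_singleton]
    ring
  have s4 : ∀ f : ℤ → ℕ, ∑ k ∈ ({0, 1, 2, 3} : Finset ℤ), f k = f 0 + f 1 + f 2 + f 3 := fun f => by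
    rw [Finset.sum_insert (by decide), Finset.sum_insert (by decide), Finset.sum_insert (by decide),
      Finset.sum_singleton]
    ring
  have s2 : ∀ f : ℤ → ℕ, ∑ k ∈ ({0, 1} : Finset ℤ), f k = f 0 + f 1 := fun f => by
    rw [Finset.sum_insert (by decide), Finset.sum_singleton]
  rw [s6, s6] at t0
  rw [s4, s4] at t2
  rw [s2, s2] at t4
  norm_num at t0 t2 t4
  obtain ⟨⟨x1, x2, x3⟩, ⟨x4, x5, x6⟩, ⟨x7, x8, x9⟩, ⟨x10, x11, x12⟩, ⟨x13, x14, x15⟩,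
    ⟨x16, x17, x18⟩, ⟨x19, x20, x21⟩, x22, x23, x24⟩ := symm_five X
  obtain ⟨⟨y1, y2, y3⟩, ⟨y4, y5, y6⟩, ⟨y7, y8, y9⟩, ⟨y10, y11, y12⟩, ⟨y13, y14, y15⟩,
    ⟨y16, y17, y18⟩, ⟨y19, y20, y21⟩, y22, y23, y24⟩ := symm_five Y
  rw [x1, x2, x3, y1, y2, y3] at t0
  rw [x19, x7, y19, y7] at t2
  rw [x13, y13] at t4
  clear x1 x2 x3 x4 x5 x6 x7 x8 x9 x10 x11 x12 x13 x14 x15 x16 x17 x18 x19 x20 x21 x22 x23 x24
    y1 y2 y3 y4 y5 y6 y7 y8 y9 y10 y11 y12 y13 y14 y15 y16 y17 y18 y19 y20 y21 y22 y23 y24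
    z1 z2 s6 s4 s2
  have c1 := X.h00
  have c2' := Y.h00
  refine ⟨?_, ?_, ?_, ?_, ?_, ?_, ?_, ?_⟩ <;> omega

theorem euler_eq {X Y : KRing 5} (Φ : FM X Y) (h10 : X.h 1 0 = Y.h 1 0) :
    ∑ p ∈ range (5 + 1), ∑ q ∈ range (5 + 1), (-1 : ℂ) ^ (p + q) * (X.h p q : ℂ) =
      ∑ p ∈ range (5 + 1), ∑ q ∈ range (5 + 1), (-1 : ℂ) ^ (p + q) * (Y.h p q : ℂ) := by
  obtain ⟨r1, r2, r3, r4, r5, r6, r7, r8⟩ := five_rel Φ h10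
  have k : ∑ p ∈ range (5 + 1), ∑ q ∈ range (5 + 1), (-1 : ℤ) ^ (p + q) * (X.h p q : ℤ) =
      ∑ p ∈ range (5 + 1), ∑ q ∈ range (5 + 1), (-1 : ℤ) ^ (p + q) * (Y.h p q : ℤ) := by
    rw [euler_expand, euler_expand]
    have c1 := X.h00
    have c2 := Y.h00
    omega
  have k2 := congrArg (Int.cast : ℤ → ℂ) k
  push_cast at k2
  exact k2

/-- Dimension five: all the Hodge numbers are determined by the holomorphic Euler characteristic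
and the number `∑ (-1)^{p+q} (p - 5/2)^2 h^{p,q}`. -/
theorem five_all {X Y : KRing 5} (Φ : FM X Y) (h10 : X.h 1 0 = Y.h 1 0)
    (hchi : ∑ q ∈ range (5 + 1), (-1 : ℂ) ^ q * (X.h 0 q : ℂ) =
      ∑ q ∈ range (5 + 1), (-1 : ℂ) ^ q * (Y.h 0 q : ℂ))
    (hlw : ∑ p ∈ range (5 + 1), ∑ q ∈ range (5 + 1),
        (-1 : ℂ) ^ (p + q) * ((p : ℂ) - (5 : ℕ) / 2) ^ 2 * (X.h p q : ℂ) =
      ∑ p ∈ range (5 + 1), ∑ q ∈ range (5 + 1),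
        (-1 : ℂ) ^ (p + q) * ((p : ℂ) - (5 : ℕ) / 2) ^ 2 * (Y.h p q : ℂ)) (p q : ℤ) :
    X.h p q = Y.h p q := by
  obtain ⟨r1, r2, r3, r4, r5, r6, r7, r8⟩ := five_rel Φ h10
  have c1 := X.h00
  have c2 := Y.h00
  have e1 := chi_int hchi
  have e2 := lw_int hlw
  rw [chi_expand, chi_expand] at e1
  rw [lw_expand, lw_expand] at e2
  have k20 : X.h 2 0 = Y.h 2 0 := by omega
  have k31 : X.h 3 1 = Y.h 3 1 := by omega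
  have k11 : X.h 1 1 = Y.h 1 1 := by omega
  have k22 : X.h 2 2 = Y.h 2 2 := by omega
  exact of_domain h10 k20 r1 r2 r3 k11 r5 k31 r4 k22 r6 p q

end Pool.Agent.V8H84.SF
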