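import Pool.Agent.V8H84.SF.Chern
import Pool.Agent.V8H84.SF.Hodge

/-!
# The induction on the dimension
-/

set_option autoImplicit false

namespace Pool.Agent.V8H84.SF

open Pool.Agent.W539.DI Finset

theorem Equivalent.two {X Y : Variety 2} (h : Equivalent X Y) (p q : ℤ) : X.h p q = Y.h p q := by
  obtain ⟨⟨Φ⟩, h10⟩ := h
  exact two_all Φ h10 p q

theorem Equivalent.three {X Y : Variety 3} (h : Equivalent X Y) (p q : ℤ) : X.h p q = Y.h p q := by
  obtain ⟨⟨Φ⟩, -⟩ := h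
  exact three_all Φ p q

theorem Equivalent.four {X Y : Variety 4} (h : Equivalent X Y) (p q : ℤ) : X.h p q = Y.h p q := by
  obtain ⟨⟨Φ⟩, h10⟩ := h
  exact Φ.four_all h10 p q

theorem num_zero {n : ℕ} {X : Variety n} (h : X.cc 1 = 0) (x : X.coh.R) :
    X.num (X.cc 1 * x) = 0 := by
  unfold Variety.num
  rw [h, zero_mul, map_zero]

/-- threefolds -/
theorem same_three {X Y : Variety 3} (h : SemiampleEquivalent 3 X Y) : Same3 X Y := by
  obtain ⟨h1, h2⟩ := h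
  refine same3 h1.three ?_
  rcases h2 with ⟨hX, hY⟩ | ⟨s, E, E', h0, ⟨D⟩, ⟨D'⟩, hE⟩
  · rw [num_zero hX, num_zero hY]
  · obtain ⟨k1, k2⟩ := same2 (Equivalent.two hE)
    rw [num3 D h0, num3 D' h0, k1]

/-- fourfolds -/
theorem same_four {X Y : Variety 4} (h : SemiampleEquivalent 4 X Y) : Same4 X Y := by
  obtain ⟨h1, h2⟩ := h
  rcases h2 with ⟨hX, hY⟩ | ⟨s, E, E', h0, ⟨D⟩, ⟨D'⟩, hE⟩
  · refine same4 h1.four ?_ ?_
    · rw [num_zero hX, num_zero hY]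
    · rw [num_zero hX, num_zero hY]
  · obtain ⟨k1, k2, k3⟩ := same_three hE
    refine same4 h1.four ?_ ?_
    · rw [(num4 D h0).1, (num4 D' h0).1, k1]
    · rw [(num4 D h0).2, (num4 D' h0).2, k1, k2]

/-- fivefolds -/
theorem same_five {X Y : Variety 5} (h : SemiampleEquivalent 5 X Y) : Same5 X Y := by
  obtain ⟨-, h2⟩ := h
  rcases h2 with ⟨hX, hY⟩ | ⟨s, E, E', h0, ⟨D⟩, ⟨D'⟩, hE⟩
  · refine ⟨?_, ?_⟩
    · rw [todd_five, todd_five]
      have kX := num_zero hX (-(X.cc 1 * (X.cc 1 * X.cc 2)) + (3 : ℂ) • (X.cc 2 * X.cc 2) +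
        X.cc 1 * X.cc 3 - X.cc 4)
      have kY := num_zero hY (-(Y.cc 1 * (Y.cc 1 * Y.cc 2)) + (3 : ℂ) • (Y.cc 2 * Y.cc 2) +
        Y.cc 1 * Y.cc 3 - Y.cc 4)
      unfold Variety.num at kX kY ⊢
      rw [map_smul, map_smul, kX, kY]
    · rw [num_zero hX, num_zero hY]
  · exact same5 D D' h0 (same_four hE)

/-- Derived equivalent fivefolds with semiample canonical or anticanonical bundles have the same
Hodge numbers. -/
theorem hodge_five {X Y : Variety 5} (h : SemiampleEquivalent 5 X Y) (p q : ℤ) :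
    X.h p q = Y.h p q := by
  obtain ⟨k1, k2⟩ := same_five h
  obtain ⟨⟨⟨Φ⟩, h10⟩, -⟩ := h
  have kchi : ∑ q ∈ range (5 + 1), (-1 : ℂ) ^ q * (X.coh.h 0 q : ℂ) =
      ∑ q ∈ range (5 + 1), (-1 : ℂ) ^ q * (Y.coh.h 0 q : ℂ) := by
    rw [X.riemann_roch le_rfl, Y.riemann_roch le_rfl]
    exact k1
  have keu : X.coh.tr (X.cc 5) = Y.coh.tr (Y.cc 5) := by
    rw [← X.gauss_bonnet, ← Y.gauss_bonnet]
    exact euler_eq Φ h10
  refine five_all Φ h10 kchi ?_ p q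
  rw [X.libgober_wood, Y.libgober_wood, keu]
  have := k2
  unfold Variety.num at this
  rw [show 5 - 1 = 4 from rfl, this]

end Pool.Agent.V8H84.SF
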