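import Pool.Agent.V8H84.SF.Cols
import Pool.Agent.V8H84.SF.Main

/-!
# The formula of Libgober and Wood in all dimensions
-/

set_option autoImplicit false

namespace Pool.Agent.V8H84.SF

open Pool.Agent.W539.DI Finset

variable {n : ℕ}

theorem SemiampleEquivalent.equivalent : ∀ {n : ℕ} {X Y : Variety n},
    SemiampleEquivalent n X Y → Equivalent X Y
  | 0, _, _, h => h
  | 1, _, _, h => h
  | 2, _, _, h => h
  | _ + 3, _, _, h => h.1

/-- the sums over the square, for the two varieties -/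
theorem cast_zero {X Y : KRing n} {w : ℕ → ℕ → ℤ}
    (h : ∑ p ∈ range (n + 1), ∑ q ∈ range (n + 1), w p q * del X Y p q = 0) :
    ∑ p ∈ range (n + 1), ∑ q ∈ range (n + 1), (w p q : ℂ) * (X.h p q : ℂ) =
      ∑ p ∈ range (n + 1), ∑ q ∈ range (n + 1), (w p q : ℂ) * (Y.h p q : ℂ) := by
  have h1 : ((∑ p ∈ range (n + 1), ∑ q ∈ range (n + 1), w p q * del X Y p q : ℤ) : ℂ) = 0 := by
    rw [h, Int.cast_zero]
  rw [← sub_eq_zero, ← Finset.sum_sub_distrib, ← h1]
  push_cast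
  refine Finset.sum_congr rfl fun p _ => ?_
  rw [← Finset.sum_sub_distrib]
  refine Finset.sum_congr rfl fun q _ => ?_
  unfold del
  push_cast
  ring

theorem zero_cast {X Y : KRing n} {w : ℕ → ℕ → ℤ}
    (h : ∑ p ∈ range (n + 1), ∑ q ∈ range (n + 1), (w p q : ℂ) * (X.h p q : ℂ) =
      ∑ p ∈ range (n + 1), ∑ q ∈ range (n + 1), (w p q : ℂ) * (Y.h p q : ℂ)) :
    ∑ p ∈ range (n + 1), ∑ q ∈ range (n + 1), w p q * del X Y p q = 0 := by
  have h1 : ((∑ p ∈ range (n + 1), ∑ q ∈ range (n + 1), w p q * del X Y p q : ℤ) : ℂ) = 0 := by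
    rw [← sub_eq_zero, ← Finset.sum_sub_distrib] at h
    rw [← h]
    push_cast
    refine Finset.sum_congr rfl fun p _ => ?_
    rw [← Finset.sum_sub_distrib]
    refine Finset.sum_congr rfl fun q _ => ?_
    unfold del
    push_cast
    ring
  exact_mod_cast h1

/-- Euler numbers agree -/
theorem top_num_eq {X Y : Variety n} (h : Equivalent X Y) :
    X.num (X.cc n) = Y.num (Y.cc n) := by
  obtain ⟨⟨Φ⟩, -⟩ := h
  unfold Variety.num
  rw [← X.gauss_bonnet, ← Y.gauss_bonnet]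
  have h1 := cast_zero (w := fun p q => (-1) ^ (p + q)) (euler_zero Φ)
  push_cast at h1
  exact h1

/-- the Chern numbers `c₁ c_{n-1}` agree -/
theorem lw_num_eq : ∀ (n : ℕ) (X Y : Variety (n + 1)), SemiampleEquivalent (n + 1) X Y →
    X.num (X.cc 1 * X.cc n) = Y.num (Y.cc 1 * Y.cc n)
  | 0, X, Y, h => by
    have h1 := top_num_eq (show Equivalent X Y from h)
    rw [X.cc_zero, Y.cc_zero, mul_one, mul_one]
    exact h1
  | 1, X, Y, h => by
    exact lw_eq (Equivalent.two (show Equivalent X Y from h))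
  | m + 2, X, Y, h => by
    obtain ⟨-, h2⟩ := h
    rcases h2 with ⟨hX, hY⟩ | ⟨s, E, E', h0, ⟨D⟩, ⟨D'⟩, hE⟩
    · rw [num_zero hX, num_zero hY]
    · have h3 := lw_num_eq (m + 1) E E' hE
      have h4 := top_num_eq hE.equivalent
      unfold Variety.num at h3 h4 ⊢
      rw [D.tr_eq h0, D'.tr_eq h0, D.res_succ (m + 1), D'.res_succ (m + 1), map_add, map_add,
        map_smul, map_smul, h3, h4]

/-- the formula of Libgober and Wood, for the differences of the Hodge numbers -/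
theorem lw_zero {X Y : Variety n} (h : SemiampleEquivalent n X Y) :
    ∑ p ∈ range (n + 1), ∑ q ∈ range (n + 1),
      ((-1 : ℤ) ^ (p + q) * (2 * (p : ℤ) - n) ^ 2) * del X.coh Y.coh p q = 0 := by
  apply zero_cast (w := fun p q => (-1 : ℤ) ^ (p + q) * (2 * (p : ℤ) - n) ^ 2)
  have h1 : ∀ Z : Variety n, ∑ p ∈ range (n + 1), ∑ q ∈ range (n + 1),
      (((-1 : ℤ) ^ (p + q) * (2 * (p : ℤ) - n) ^ 2 : ℤ) : ℂ) * (Z.coh.h p q : ℂ) =
      4 * ((n / 12 : ℂ) * Z.coh.tr (Z.cc n) + (1 / 6 : ℂ) * Z.coh.tr (Z.cc 1 * Z.cc (n - 1))) := by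
    intro Z
    rw [← Z.libgober_wood, Finset.mul_sum]
    refine Finset.sum_congr rfl fun p _ => ?_
    rw [Finset.mul_sum]
    refine Finset.sum_congr rfl fun q _ => ?_
    push_cast
    ring
  rw [h1 X, h1 Y]
  have h2 := top_num_eq h.equivalent
  unfold Variety.num at h2
  rw [h2]
  cases n with
  | zero =>
    have h3 : ∀ Z : Variety 0, Z.coh.tr (Z.cc 1 * Z.cc (0 - 1)) = 0 := by
      intro Z
      rw [show (0 - 1 : ℕ) = 0 from rfl, Z.cc_zero, mul_one]
      refine Z.coh.tr_van 1 1 _ (by have := Z.cc_mem 1; simpa using this) ?_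
      norm_num
    rw [h3 X, h3 Y]
  | succ m =>
    have h3 := lw_num_eq m X Y h
    unfold Variety.num at h3
    rw [show (m + 1 - 1 : ℕ) = m from rfl, h3]

/-- in terms of the degree -/
theorem degree_zero {X Y : Variety n} (h : SemiampleEquivalent n X Y) :
    ∑ p ∈ range (n + 1), ∑ q ∈ range (n + 1),
      ((-1 : ℤ) ^ (p + q) * ((p : ℤ) + q - n) ^ 2) * del X.coh Y.coh p q = 0 := by
  have h1 := lw_zero h
  have h2 : ∑ p ∈ range (n + 1), ∑ q ∈ range (n + 1),
      ((-1 : ℤ) ^ (p + q) * (2 * (q : ℤ) - n) ^ 2) * del X.coh Y.coh p q = 0 := by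
    rw [Finset.sum_comm, ← h1]
    refine Finset.sum_congr rfl fun p _ => Finset.sum_congr rfl fun q _ => ?_
    rw [del_swap X.coh Y.coh q p, add_comm q p]
  obtain ⟨⟨Φ⟩, -⟩ := h.equivalent
  have h3 := weighted_zero Φ (fun d => sg d * d ^ 2)
  have h4 : 2 * ∑ p ∈ range (n + 1), ∑ q ∈ range (n + 1),
      ((-1 : ℤ) ^ (p + q) * ((p : ℤ) + q - n) ^ 2) * del X.coh Y.coh p q =
      (∑ p ∈ range (n + 1), ∑ q ∈ range (n + 1),
        ((-1 : ℤ) ^ (p + q) * (2 * (p : ℤ) - n) ^ 2) * del X.coh Y.coh p q) +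
      (∑ p ∈ range (n + 1), ∑ q ∈ range (n + 1),
        ((-1 : ℤ) ^ (p + q) * (2 * (q : ℤ) - n) ^ 2) * del X.coh Y.coh p q) -
      2 * ∑ p ∈ range (n + 1), ∑ q ∈ range (n + 1),
        (sg ((p : ℤ) - q) * ((p : ℤ) - q) ^ 2) * del X.coh Y.coh p q := by
    simp only [Finset.mul_sum, ← Finset.sum_add_distrib, ← Finset.sum_sub_distrib]
    refine Finset.sum_congr rfl fun p _ => Finset.sum_congr rfl fun q _ => ?_
    rw [← sg_nat]
    ring
  rw [h1, h2, h3] at h4
  linarith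

/-- the corrected weights -/
def wt (j : ℤ) : ℤ := j ^ 2 - rr j

theorem wt_zero {j : ℤ} (h1 : -2 ≤ j) (h2 : j ≤ 2) : wt j = 0 := by
  unfold wt rr
  interval_cases j <;> norm_num

theorem wt_pos {j : ℤ} (h : j < -2 ∨ 2 < j) : 0 < wt j := by
  have h1 : 9 ≤ j ^ 2 := by
    rcases h with h | h
    · nlinarith
    · nlinarith
  have h2 : rr j ≤ 4 := by
    unfold rr
    split_ifs <;> norm_num
  unfold wt
  linarith

theorem rr_zero {X Y : KRing n} (Φ : FM X Y) :
    ∑ p ∈ range (n + 1), ∑ q ∈ range (n + 1),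
      ((-1 : ℤ) ^ (p + q) * rr ((p : ℤ) + q - n)) * del X Y p q = 0 := by
  have h0 : ∑ p ∈ range (n + 1), ∑ q ∈ range (n + 1),
      ((-1 : ℤ) ^ (p + q) * rr ((p : ℤ) + q - n)) * del X Y p q =
      ∑ p ∈ range (n + 1), ∑ q ∈ range (n + 1),
      (sg ((p : ℤ) - q) * rr ((p : ℤ) + q - n)) * del X Y p q := by
    refine Finset.sum_congr rfl fun p _ => Finset.sum_congr rfl fun q _ => ?_
    rw [sg_nat]
  rw [h0, box_to_cols (n := n) (fun p q => (sg (p - q) * rr (p + q - n)) * del X Y p q)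
    (fun p q h => by
      show (sg (p - q) * rr (p + q - n)) * del X Y p q = 0
      rw [del_out X Y h, mul_zero])]
  refine Finset.sum_eq_zero fun d hd => ?_
  have h2 : ∀ k ∈ Icc (0 : ℤ) n, (sg (d + k - k) * rr (d + k + k - n)) * del X Y (d + k) k =
      sg d * (rr (d + 2 * k - n) * del X Y (d + k) k) := by
    intro k _
    rw [add_sub_cancel_right, show d + k + k - n = d + 2 * k - n by ring]
    ring
  rw [Finset.sum_congr rfl h2, ← Finset.mul_sum, col_rr Φ hd, mul_zero]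

/-- the main relation -/
theorem wt_sum_zero {X Y : Variety n} (h : SemiampleEquivalent n X Y) :
    ∑ p ∈ range (n + 1), ∑ q ∈ range (n + 1),
      ((-1 : ℤ) ^ (p + q) * wt ((p : ℤ) + q - n)) * del X.coh Y.coh p q = 0 := by
  have h1 := degree_zero h
  obtain ⟨⟨Φ⟩, -⟩ := h.equivalent
  have h2 := rr_zero Φ
  rw [← sub_eq_zero_of_eq (h1.trans h2.symm)]
  simp only [← Finset.sum_sub_distrib]
  refine Finset.sum_congr rfl fun p _ => Finset.sum_congr rfl fun q _ => ?_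
  unfold wt
  ring

end Pool.Agent.V8H84.SF
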