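import Pool.Agent.V8H84.SF.Defs

/-!
# Chern numbers and divisors proportional to the first Chern class
-/

set_option autoImplicit false

namespace Pool.Agent.V8H84.SF

open Pool.Agent.W539.DI Finset

variable {n : ℕ}

theorem Variety.cc_one_comm (X : Variety n) (x : X.coh.R) : X.cc 1 * x = x * X.cc 1 :=
  X.coh.central (by have := X.cc_mem 1; simpa using this) x

theorem Divisor.tr_mul {X : Variety (n + 1)} {E : Variety n} {s : ℝ} (D : Divisor X E s)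
    (x : X.coh.R) : (s : ℂ) * X.coh.tr (X.cc 1 * x) = E.coh.tr (D.res x) := by
  rw [D.projection, map_smul, smul_eq_mul]

theorem Divisor.tr_eq {X : Variety (n + 1)} {E : Variety n} {s : ℝ} (D : Divisor X E s)
    (hs : s ≠ 0) (x : X.coh.R) :
    X.coh.tr (X.cc 1 * x) = (s : ℂ)⁻¹ * E.coh.tr (D.res x) := by
  rw [← D.tr_mul, ← mul_assoc, inv_mul_cancel₀ (by exact_mod_cast hs), one_mul]

theorem Divisor.res_one {X : Variety (n + 1)} {E : Variety n} {s : ℝ} (D : Divisor X E s) :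
    D.res (X.cc 1) = ((1 : ℂ) - s)⁻¹ • E.cc 1 := by
  by_cases hs : s = 1
  · rw [D.fibre hs, hs]
    norm_num
  have h := D.adjunction 0
  rw [zero_add, E.cc_zero, mul_one] at h
  have h2 : ((1 : ℂ) - s) • D.res (X.cc 1) = E.cc 1 := by
    rw [sub_smul, one_smul]
    rw [sub_eq_iff_eq_add]
    exact h
  have h3 : ((1 : ℂ) - s) ≠ 0 := by
    intro h0
    apply hs
    have : (s : ℂ) = 1 := by linear_combination -h0
    exact_mod_cast this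
  rw [← h2, smul_smul, inv_mul_cancel₀ h3, one_smul]

theorem Divisor.res_succ {X : Variety (n + 1)} {E : Variety n} {s : ℝ} (D : Divisor X E s)
    (k : ℕ) : D.res (X.cc (k + 1)) =
      E.cc (k + 1) + ((s : ℂ) * ((1 : ℂ) - s)⁻¹) • (E.cc 1 * E.cc k) := by
  rw [D.adjunction, D.res_one, smul_mul_assoc, smul_smul]

/-- The Chern number `∫ x` for a class `x`. -/
noncomputable def Variety.num (X : Variety n) (x : X.coh.R) : ℂ := X.coh.tr x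

/-! ### surfaces -/

/-- the Chern numbers `c₁²`, `c₂` agree -/
def Same2 (X Y : Variety 2) : Prop :=
  X.num (X.cc 1 * X.cc 1) = Y.num (Y.cc 1 * Y.cc 1) ∧ X.num (X.cc 2) = Y.num (Y.cc 2)

theorem chi_eq {X Y : Variety n} (hn : n ≤ 5) (h : ∀ p q : ℤ, X.h p q = Y.h p q) :
    X.num (todd X.cc n) = Y.num (todd Y.cc n) := by
  unfold Variety.num
  rw [← X.riemann_roch hn, ← Y.riemann_roch hn]
  refine Finset.sum_congr rfl fun q _ => ?_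
  have : X.coh.h 0 q = Y.coh.h 0 q := h 0 q
  rw [this]

theorem top_eq {X Y : Variety n} (h : ∀ p q : ℤ, X.h p q = Y.h p q) :
    X.num (X.cc n) = Y.num (Y.cc n) := by
  unfold Variety.num
  rw [← X.gauss_bonnet, ← Y.gauss_bonnet]
  refine Finset.sum_congr rfl fun p _ => Finset.sum_congr rfl fun q _ => ?_
  have : X.coh.h p q = Y.coh.h p q := h p q
  rw [this]

theorem lw_eq {X Y : Variety n} (h : ∀ p q : ℤ, X.h p q = Y.h p q) :
    X.num (X.cc 1 * X.cc (n - 1)) = Y.num (Y.cc 1 * Y.cc (n - 1)) := by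
  have h1 := top_eq h
  unfold Variety.num at h1 ⊢
  have h2 := X.libgober_wood
  have h3 := Y.libgober_wood
  have h4 : ∑ p ∈ range (n + 1), ∑ q ∈ range (n + 1),
      (-1 : ℂ) ^ (p + q) * ((p : ℂ) - n / 2) ^ 2 * (X.coh.h p q : ℂ) =
      ∑ p ∈ range (n + 1), ∑ q ∈ range (n + 1),
      (-1 : ℂ) ^ (p + q) * ((p : ℂ) - n / 2) ^ 2 * (Y.coh.h p q : ℂ) := by
    refine Finset.sum_congr rfl fun p _ => Finset.sum_congr rfl fun q _ => ?_
    have : X.coh.h p q = Y.coh.h p q := h p q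
    rw [this]
  rw [h2, h3, h1] at h4
  linear_combination 6 * h4

theorem same2 {X Y : Variety 2} (h : ∀ p q : ℤ, X.h p q = Y.h p q) : Same2 X Y := by
  have h1 := chi_eq (by norm_num) h
  have h2 := top_eq h
  refine ⟨?_, h2⟩
  unfold Variety.num todd at *
  simp only [map_smul, map_add, smul_eq_mul] at h1
  linear_combination 12 * h1 - h2

/-! ### threefolds -/

/-- the Chern numbers `c₁³`, `c₁ c₂`, `c₃` agree -/
def Same3 (X Y : Variety 3) : Prop :=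
  X.num (X.cc 1 * (X.cc 1 * X.cc 1)) = Y.num (Y.cc 1 * (Y.cc 1 * Y.cc 1)) ∧
  X.num (X.cc 1 * X.cc 2) = Y.num (Y.cc 1 * Y.cc 2) ∧ X.num (X.cc 3) = Y.num (Y.cc 3)

theorem num3 {X : Variety 3} {E : Variety 2} {s : ℝ} (D : Divisor X E s) (h0 : s ≠ 0) :
    X.num (X.cc 1 * (X.cc 1 * X.cc 1)) =
      (s : ℂ)⁻¹ * (((1 : ℂ) - s)⁻¹ ^ 2 * E.num (E.cc 1 * E.cc 1)) := by
  unfold Variety.num
  rw [D.tr_eq h0, map_mul, D.res_one, smul_mul_smul_comm, map_smul, smul_eq_mul]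
  ring

theorem same3 {X Y : Variety 3} (h : ∀ p q : ℤ, X.h p q = Y.h p q)
    (hc : X.num (X.cc 1 * (X.cc 1 * X.cc 1)) = Y.num (Y.cc 1 * (Y.cc 1 * Y.cc 1))) :
    Same3 X Y :=
  ⟨hc, lw_eq h, top_eq h⟩

/-! ### fourfolds -/

/-- the Chern numbers `c₁⁴`, `c₁² c₂`, `c₂²`, `c₁ c₃`, `c₄` agree -/
def Same4 (X Y : Variety 4) : Prop :=
  X.num (X.cc 1 * (X.cc 1 * (X.cc 1 * X.cc 1))) = Y.num (Y.cc 1 * (Y.cc 1 * (Y.cc 1 * Y.cc 1))) ∧
  X.num (X.cc 1 * (X.cc 1 * X.cc 2)) = Y.num (Y.cc 1 * (Y.cc 1 * Y.cc 2)) ∧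
  X.num (X.cc 2 * X.cc 2) = Y.num (Y.cc 2 * Y.cc 2) ∧
  X.num (X.cc 1 * X.cc 3) = Y.num (Y.cc 1 * Y.cc 3) ∧ X.num (X.cc 4) = Y.num (Y.cc 4)

theorem num4 {X : Variety 4} {E : Variety 3} {s : ℝ} (D : Divisor X E s) (h0 : s ≠ 0) :
    X.num (X.cc 1 * (X.cc 1 * (X.cc 1 * X.cc 1))) =
      (s : ℂ)⁻¹ * (((1 : ℂ) - s)⁻¹ ^ 3 * E.num (E.cc 1 * (E.cc 1 * E.cc 1))) ∧
    X.num (X.cc 1 * (X.cc 1 * X.cc 2)) =
      (s : ℂ)⁻¹ * (((1 : ℂ) - s)⁻¹ * (E.num (E.cc 1 * E.cc 2) +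
        (s : ℂ) * ((1 : ℂ) - s)⁻¹ * E.num (E.cc 1 * (E.cc 1 * E.cc 1)))) := by
  unfold Variety.num
  constructor
  · rw [D.tr_eq h0, map_mul D.res, map_mul D.res, D.res_one, smul_mul_smul_comm,
      smul_mul_smul_comm, map_smul, smul_eq_mul]
    ring
  · rw [D.tr_eq h0, map_mul, D.res_one, D.res_succ 1, smul_mul_assoc, mul_add,
      mul_smul_comm, map_smul, map_add, map_smul, smul_eq_mul, smul_eq_mul]

theorem same4 {X Y : Variety 4} (h : ∀ p q : ℤ, X.h p q = Y.h p q)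
    (hc : X.num (X.cc 1 * (X.cc 1 * (X.cc 1 * X.cc 1))) =
      Y.num (Y.cc 1 * (Y.cc 1 * (Y.cc 1 * Y.cc 1))))
    (hc2 : X.num (X.cc 1 * (X.cc 1 * X.cc 2)) = Y.num (Y.cc 1 * (Y.cc 1 * Y.cc 2))) :
    Same4 X Y := by
  have h1 := chi_eq (by norm_num) h
  have h2 := top_eq h
  have h3 := lw_eq h
  refine ⟨hc, hc2, ?_, h3, h2⟩
  unfold Variety.num todd at *
  simp only [map_smul, map_add, map_sub, map_neg, smul_eq_mul, mul_assoc] at h1 hc hc2 h2 h3 ⊢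
  linear_combination 240 * h1 + (1 / 3 : ℂ) * hc - (4 / 3 : ℂ) * hc2 - (1 / 3 : ℂ) * h3 +
    (1 / 3 : ℂ) * h2

/-! ### fivefolds -/

/-- the Chern numbers which occur in the Todd class and `c₁ c₄` agree -/
def Same5 (X Y : Variety 5) : Prop :=
  X.num (todd X.cc 5) = Y.num (todd Y.cc 5) ∧ X.num (X.cc 1 * X.cc 4) = Y.num (Y.cc 1 * Y.cc 4)

theorem todd_five {R : Type} [Ring R] [Algebra ℂ R] (c : ℕ → R) : todd c 5 =
    (1 / 1440 : ℂ) • (c 1 * (-(c 1 * (c 1 * c 2)) + (3 : ℂ) • (c 2 * c 2) + c 1 * c 3 - c 4)) := by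
  unfold todd
  rw [mul_sub, mul_add, mul_add, mul_smul_comm, mul_neg]
  simp only [mul_assoc]

theorem num5 {X : Variety 5} {E : Variety 4} {s : ℝ} (D : Divisor X E s) (h0 : s ≠ 0) :
    X.num (X.cc 1 * X.cc 4) = (s : ℂ)⁻¹ * (E.num (E.cc 4) +
        (s : ℂ) * ((1 : ℂ) - s)⁻¹ * E.num (E.cc 1 * E.cc 3)) ∧
    X.num (todd X.cc 5) = (1 / 1440 : ℂ) * ((s : ℂ)⁻¹ *
      (- E.num (E.cc 4) + (((1 : ℂ) - s)⁻¹ - (s : ℂ) * ((1 : ℂ) - s)⁻¹) * E.num (E.cc 1 * E.cc 3) +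
        3 * E.num (E.cc 2 * E.cc 2) + (6 * ((s : ℂ) * ((1 : ℂ) - s)⁻¹) - ((1 : ℂ) - s)⁻¹ ^ 2 +
          (s : ℂ) * ((1 : ℂ) - s)⁻¹ * ((1 : ℂ) - s)⁻¹) * E.num (E.cc 1 * (E.cc 1 * E.cc 2)) +
        (3 * ((s : ℂ) * ((1 : ℂ) - s)⁻¹) ^ 2 - ((1 : ℂ) - s)⁻¹ ^ 2 * ((s : ℂ) * ((1 : ℂ) - s)⁻¹)) *
          E.num (E.cc 1 * (E.cc 1 * (E.cc 1 * E.cc 1))))) := by
  unfold Variety.num
  constructor
  · rw [D.tr_eq h0, D.res_succ 3, map_add, map_smul, smul_eq_mul]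
  · rw [todd_five, map_smul, smul_eq_mul, D.tr_eq h0]
    congr 2
    simp only [map_sub, map_add, map_neg, map_smul, map_mul]
    rw [D.res_one, D.res_succ 1, D.res_succ 2, D.res_succ 3]
    have hcomm : E.cc 2 * (E.cc 1 * E.cc 1) = E.cc 1 * (E.cc 1 * E.cc 2) := by
      rw [← mul_assoc, ← E.cc_one_comm (E.cc 2), mul_assoc, ← E.cc_one_comm (E.cc 2)]
    simp only [one_add_one_eq_two, show (2 + 1 : ℕ) = 3 from rfl, show (3 + 1 : ℕ) = 4 from rfl]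
    simp only [mul_add, add_mul, smul_mul_assoc, mul_smul_comm, smul_smul, smul_add, map_add,
      map_smul, smul_eq_mul, mul_assoc, hcomm]
    ring

theorem same5 {X Y : Variety 5} {E E' : Variety 4} {s : ℝ} (D : Divisor X E s)
    (D' : Divisor Y E' s) (h0 : s ≠ 0) (h : Same4 E E') : Same5 X Y := by
  obtain ⟨k1, k2, k3, k4, k5⟩ := h
  obtain ⟨a1, a2⟩ := num5 D h0
  obtain ⟨b1, b2⟩ := num5 D' h0
  refine ⟨?_, ?_⟩
  · rw [a2, b2, k1, k2, k3, k4, k5]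
  · rw [a1, b1, k4, k5]

end Pool.Agent.V8H84.SF
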