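import Pool.Agent.V8H84.SF.Defs

/-!
# Sums of Hodge numbers over the columns `p - q = d`
-/

set_option autoImplicit false
set_option linter.unusedSectionVars false

namespace Pool.Agent.V8H84.SF

open Pool.Agent.W539.DI Finset

variable {n : ℕ}

theorem sum_range_Icc (n : ℕ) (G : ℤ → ℤ) :
    ∑ q ∈ range (n + 1), G q = ∑ k ∈ Icc (0 : ℤ) n, G k := by
  refine Finset.sum_bij (fun q _ => (q : ℤ)) ?_ ?_ ?_ ?_
  · intro q hq
    rw [mem_range] at hq
    rw [mem_Icc]
    omega
  · intro a _ b _ h
    exact_mod_cast h
  · intro k hk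
    rw [mem_Icc] at hk
    refine ⟨k.toNat, ?_, ?_⟩
    · rw [mem_range]
      omega
    · exact Int.toNat_of_nonneg hk.1
  · intro _ _
    rfl

/-- the sum over the square is a sum over columns -/
theorem box_to_cols (F : ℤ → ℤ → ℤ)
    (hF : ∀ p q : ℤ, p < 0 ∨ q < 0 ∨ (n : ℤ) < p ∨ (n : ℤ) < q → F p q = 0) :
    ∑ p ∈ range (n + 1), ∑ q ∈ range (n + 1), F p q =
      ∑ d ∈ Icc (-n : ℤ) n, ∑ k ∈ Icc (0 : ℤ) n, F (d + k) k := by
  rw [Finset.sum_comm, Finset.sum_comm (s := Icc (-n : ℤ) n)]
  rw [sum_range_Icc n (fun q => ∑ p ∈ range (n + 1), F p q)]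
  refine Finset.sum_congr rfl fun k hk => ?_
  rw [mem_Icc] at hk
  rw [sum_range_Icc n (fun p => F p k)]
  have h1 : ∑ d ∈ Icc (-n : ℤ) n, F (d + k) k = ∑ p ∈ Icc (-n + k : ℤ) (n + k), F p k := by
    refine Finset.sum_bij (fun d _ => d + k) ?_ ?_ ?_ ?_
    · intro d hd
      rw [mem_Icc] at hd ⊢
      omega
    · intro a _ b _ h
      exact add_right_cancel h
    · intro p hp
      rw [mem_Icc] at hp
      exact ⟨p - k, by rw [mem_Icc]; omega, by ring⟩
    · intro _ _
      rfl
  rw [h1]
  refine Finset.sum_subset ?_ ?_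
  · intro p hp
    rw [mem_Icc] at hp ⊢
    omega
  · intro p _ hp
    rw [mem_Icc] at hp
    exact hF p k (by omega)

/-- the difference of the Hodge numbers -/
noncomputable def del (X Y : KRing n) (p q : ℤ) : ℤ := (X.h p q : ℤ) - Y.h p q

theorem del_out (X Y : KRing n) {p q : ℤ} (h : p < 0 ∨ q < 0 ∨ (n : ℤ) < p ∨ (n : ℤ) < q) :
    del X Y p q = 0 := by
  unfold del
  rw [X.h_zero h, Y.h_zero h, sub_self]

theorem del_swap (X Y : KRing n) (p q : ℤ) : del X Y p q = del X Y q p := by
  unfold del
  rw [X.h_swap p q, Y.h_swap p q]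

theorem h_dual (X : KRing n) (p q : ℤ) : X.h p q = X.h (n - q) (n - p) := by
  rcases le_total (p + q) n with h | h
  · obtain ⟨k, hk⟩ := Int.eq_ofNat_of_zero_le (sub_nonneg.2 h)
    rw [X.h_symm k (p := p) (q := q) (by omega)]
    congr 1
    · omega
    · omega
  · obtain ⟨k, hk⟩ := Int.eq_ofNat_of_zero_le (sub_nonneg.2 h)
    have h1 := X.h_symm k (p := n - q) (q := n - p) (by omega)
    rw [h1]
    congr 1
    · omega
    · omega

theorem del_dual (X Y : KRing n) (p q : ℤ) : del X Y p q = del X Y (n - q) (n - p) := by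
  unfold del
  rw [h_dual X p q, h_dual Y p q]

/-- the relation of Hochschild homology -/
theorem col_zero {X Y : KRing n} (Φ : FM X Y) (d : ℤ) :
    ∑ k ∈ Icc (0 : ℤ) n, del X Y (d + k) k = 0 := by
  have h1 := Φ.total_all d 0 (Icc (0 : ℤ) n) (by
    intro k hk
    rw [mem_Icc] at hk
    omega)
  unfold del
  rw [Finset.sum_sub_distrib]
  have h2 : ∀ Z : KRing n, ∑ k ∈ Icc (0 : ℤ) n, (Z.h (d + k) k : ℤ) =
      ((∑ k ∈ Icc (0 : ℤ) n, Z.h (d + k) (0 + k) : ℕ) : ℤ) := by
    intro Z
    push_cast
    simp only [zero_add]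
  rw [h2, h2, h1, sub_self]

/-- sums with weights depending only on `p - q` -/
theorem weighted_zero {X Y : KRing n} (Φ : FM X Y) (g : ℤ → ℤ) :
    ∑ p ∈ range (n + 1), ∑ q ∈ range (n + 1), g ((p : ℤ) - q) * del X Y p q = 0 := by
  rw [box_to_cols (n := n) (fun p q => g (p - q) * del X Y p q) (fun p q h => by
    show g (p - q) * del X Y p q = 0
    rw [del_out X Y h, mul_zero])]
  refine Finset.sum_eq_zero fun d _ => ?_
  have h2 : ∀ k ∈ Icc (0 : ℤ) n, g (d + k - k) * del X Y (d + k) k = g d * del X Y (d + k) k := by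
    intro k _
    rw [add_sub_cancel_right]
  rw [Finset.sum_congr rfl h2, ← Finset.mul_sum, col_zero Φ d, mul_zero]

/-- the sign of an integer exponent -/
def sg (m : ℤ) : ℤ := if m % 2 = 0 then 1 else -1

theorem sg_nat (p q : ℕ) : (-1 : ℤ) ^ (p + q) = sg ((p : ℤ) - q) := by
  unfold sg
  rcases Nat.even_or_odd (p + q) with h | h
  · rw [h.neg_one_pow, if_pos]
    obtain ⟨c, hc⟩ := h
    omega
  · rw [h.neg_one_pow, if_neg]
    obtain ⟨c, hc⟩ := h
    omega

/-- Euler characteristics -/
theorem euler_zero {X Y : KRing n} (Φ : FM X Y) :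
    ∑ p ∈ range (n + 1), ∑ q ∈ range (n + 1), (-1 : ℤ) ^ (p + q) * del X Y p q = 0 := by
  have h1 := weighted_zero Φ sg
  simp only [← sg_nat] at h1
  exact h1

/-- the correction of the weights -/
def rr (j : ℤ) : ℤ := if j % 2 = 0 then (if j % 4 = 2 then 4 else 0) else 1

/-- the second relation (the signature) in each column -/
theorem col_rr {X Y : KRing n} (Φ : FM X Y) {d : ℤ} (hd : d ∈ Icc (-n : ℤ) n) :
    ∑ k ∈ Icc (0 : ℤ) n, rr (d + 2 * k - n) * del X Y (d + k) k = 0 := by
  rw [mem_Icc] at hd
  rcases Int.emod_two_eq_zero_or_one (n - d) with hpar | hpar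
  · -- the even case
    obtain ⟨a, ha⟩ : ∃ a : ℕ, (2 * a : ℤ) = n + d := ⟨((n + d) / 2).toNat, by omega⟩
    obtain ⟨b, hb⟩ : ∃ b : ℕ, (2 * b : ℤ) = n - d := ⟨((n - d) / 2).toNat, by omega⟩
    have hab : a + b = n := by omega
    have h1 := (Φ.hodge_sums a b hab).1
    have h2 : ∑ i ∈ range n, del X Y (a - 1 - 2 * i) (b - 1 - 2 * i) = 0 := by
      unfold del
      rw [Finset.sum_sub_distrib, sub_eq_zero]
      exact_mod_cast h1
    have h3 : ∑ i ∈ range n, del X Y (a + 1 + 2 * i) (b + 1 + 2 * i) = 0 := by
      rw [← h2]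
      refine Finset.sum_congr rfl fun i _ => ?_
      rw [del_dual]
      congr 1
      · omega
      · omega
    -- the sum over the column
    have h4 : ∑ k ∈ Icc (0 : ℤ) n, rr (d + 2 * k - n) * del X Y (d + k) k =
        4 * (∑ i ∈ range n, del X Y (a - 1 - 2 * i) (b - 1 - 2 * i) +
          ∑ i ∈ range n, del X Y (a + 1 + 2 * i) (b + 1 + 2 * i)) := by
      have h5 : ∑ k ∈ Icc (0 : ℤ) n, rr (d + 2 * k - n) * del X Y (d + k) k =
          ∑ k ∈ Icc (-2 * n : ℤ) (3 * n), rr (d + 2 * k - n) * del X Y (d + k) k := by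
        refine Finset.sum_subset ?_ ?_
        · intro k hk
          rw [mem_Icc] at hk ⊢
          omega
        · intro k _ hk
          rw [mem_Icc] at hk
          rw [del_out X Y (by omega), mul_zero]
      rw [h5]
      -- the two images
      set A := (range n).image fun i : ℕ => (b : ℤ) - 1 - 2 * i with hA
      set B := (range n).image fun i : ℕ => (b : ℤ) + 1 + 2 * i with hB
      have hdisj : Disjoint A B := by
        rw [Finset.disjoint_left]
        intro x hx hx'
        rw [hA, Finset.mem_image] at hx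
        rw [hB, Finset.mem_image] at hx'
        obtain ⟨i, -, hi⟩ := hx
        obtain ⟨j, -, hj⟩ := hx'
        omega
      have h6 : ∑ k ∈ A ∪ B, rr (d + 2 * k - n) * del X Y (d + k) k =
          ∑ k ∈ Icc (-2 * n : ℤ) (3 * n), rr (d + 2 * k - n) * del X Y (d + k) k := by
        refine Finset.sum_subset ?_ ?_
        · intro k hk
          rw [Finset.mem_union] at hk
          rw [mem_Icc]
          rcases hk with hk | hk
          · rw [hA, Finset.mem_image] at hk
            obtain ⟨i, hi, rfl⟩ := hk
            rw [mem_range] at hi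
            omega
          · rw [hB, Finset.mem_image] at hk
            obtain ⟨i, hi, rfl⟩ := hk
            rw [mem_range] at hi
            omega
        · intro k hk hk'
          rw [mem_Icc] at hk
          rw [Finset.mem_union, not_or] at hk'
          unfold rr
          by_cases hk4 : (d + 2 * k - n) % 4 = 2
          · -- then `k - b` is odd
            have hodd : (k - b) % 2 = 1 := by omega
            rcases lt_or_ge k b with hlt | hge
            · -- `k` in `A` unless too small
              have : ¬ (b - 1 - k) / 2 < n := by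
                intro hc
                apply hk'.1
                rw [hA, Finset.mem_image]
                refine ⟨((b - 1 - k) / 2).toNat, ?_, ?_⟩
                · rw [mem_range]
                  omega
                · omega
              rw [del_out X Y (by omega), mul_zero]
            · have : ¬ (k - b - 1) / 2 < n := by
                intro hc
                apply hk'.2
                rw [hB, Finset.mem_image]
                refine ⟨((k - b - 1) / 2).toNat, ?_, ?_⟩
                · rw [mem_range]
                  omega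
                · omega
              rw [del_out X Y (by omega), mul_zero]
          · rw [if_pos (by omega), if_neg hk4, zero_mul]
      rw [← h6, Finset.sum_union hdisj, mul_add, Finset.mul_sum, Finset.mul_sum]
      congr 1
      · rw [hA, Finset.sum_image (fun x _ y _ h => by
          have h' : (b : ℤ) - 1 - 2 * x = b - 1 - 2 * y := h
          omega)]
        refine Finset.sum_congr rfl fun i _ => ?_
        have e1 : rr (d + 2 * ((b : ℤ) - 1 - 2 * i) - n) = 4 := by
          unfold rr
          rw [if_pos (by omega), if_pos (by omega)]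
        rw [e1]
        congr 2
        omega
      · rw [hB, Finset.sum_image (fun x _ y _ h => by
          have h' : (b : ℤ) + 1 + 2 * x = b + 1 + 2 * y := h
          omega)]
        refine Finset.sum_congr rfl fun i _ => ?_
        have e1 : rr (d + 2 * ((b : ℤ) + 1 + 2 * i) - n) = 4 := by
          unfold rr
          rw [if_pos (by omega), if_pos (by omega)]
        rw [e1]
        congr 2
        omega
    rw [h4, h2, h3]
    norm_num
  · -- the odd case
    have h1 : ∀ k ∈ Icc (0 : ℤ) n, rr (d + 2 * k - n) * del X Y (d + k) k =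
        del X Y (d + k) k := by
      intro k _
      have : rr (d + 2 * k - n) = 1 := by
        unfold rr
        rw [if_neg (by omega)]
      rw [this, one_mul]
    rw [Finset.sum_congr rfl h1]
    exact col_zero Φ d

end Pool.Agent.V8H84.SF
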