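import Pool.Agent.V8H84.SF.All

/-!
# Comparison of Hodge numbers in all dimensions
-/

set_option autoImplicit false

namespace Pool.Agent.V8H84.SF

open Pool.Agent.W539.DI Finset

variable {n : ℕ}

theorem neg_pow_zpow (p q : ℕ) : (-1 : ℤ) ^ (p + q) = sg ((p : ℤ) + q - n) * (-1) ^ n := by
  unfold sg
  rcases Nat.even_or_odd (p + q) with h | h <;> rcases Nat.even_or_odd n with h' | h'
  · rw [h.neg_one_pow, h'.neg_one_pow, if_pos]
    · norm_num
    obtain ⟨c, hc⟩ := h
    obtain ⟨c', hc'⟩ := h'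
    omega
  · rw [h.neg_one_pow, h'.neg_one_pow, if_neg]
    · norm_num
    obtain ⟨c, hc⟩ := h
    obtain ⟨c', hc'⟩ := h'
    omega
  · rw [h.neg_one_pow, h'.neg_one_pow, if_neg]
    · norm_num
    obtain ⟨c, hc⟩ := h
    obtain ⟨c', hc'⟩ := h'
    omega
  · rw [h.neg_one_pow, h'.neg_one_pow, if_pos]
    · norm_num
    obtain ⟨c, hc⟩ := h
    obtain ⟨c', hc'⟩ := h'
    omega

/-- the main relation, with signs relative to the middle degree -/
theorem wt_sg_zero {X Y : Variety n} (h : SemiampleEquivalent n X Y) :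
    ∑ p ∈ range (n + 1), ∑ q ∈ range (n + 1),
      (sg ((p : ℤ) + q - n) * wt ((p : ℤ) + q - n)) * del X.coh Y.coh p q = 0 := by
  have h1 := wt_sum_zero h
  have h2 : (-1 : ℤ) ^ n * ∑ p ∈ range (n + 1), ∑ q ∈ range (n + 1),
      (sg ((p : ℤ) + q - n) * wt ((p : ℤ) + q - n)) * del X.coh Y.coh p q = 0 := by
    rw [← h1, Finset.mul_sum]
    refine Finset.sum_congr rfl fun p _ => ?_
    rw [Finset.mul_sum]
    refine Finset.sum_congr rfl fun q _ => ?_
    rw [neg_pow_zpow (n := n) p q]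
    ring
  rcases mul_eq_zero.1 h2 with h3 | h3
  · exact absurd h3 (pow_ne_zero _ (by norm_num))
  · exact h3

/-- the differences vanish away from the middle -/
theorem outer_zero {X Y : Variety n} (h : SemiampleEquivalent n X Y)
    (hle : ∀ p q : ℤ, p + q ≤ n - 3 → sg (p + q - n) * del X.coh Y.coh p q ≤ 0) (p q : ℤ)
    (hpq : p + q - n < -2 ∨ 2 < p + q - n) : del X.coh Y.coh p q = 0 := by
  by_cases hout : p < 0 ∨ q < 0 ∨ (n : ℤ) < p ∨ (n : ℤ) < q
  · exact del_out _ _ hout
  have h1 := wt_sg_zero h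
  have h2 : ∀ p q : ℤ, (p + q - n < -2 ∨ 2 < p + q - n) →
      sg (p + q - n) * del X.coh Y.coh p q ≤ 0 := by
    intro p q hh
    rcases hh with hh | hh
    · exact hle p q (by omega)
    · have h3 := hle (n - q) (n - p) (by omega)
      rw [← del_dual X.coh Y.coh p q] at h3
      have h4 : sg ((n : ℤ) - q + (n - p) - n) = sg (p + q - n) := by
        unfold sg
        congr 1
        apply propext
        omega
      rw [h4] at h3
      exact h3
  have h3 : ∀ p ∈ range (n + 1), ∀ q ∈ range (n + 1),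
      (sg ((p : ℤ) + q - n) * wt ((p : ℤ) + q - n)) * del X.coh Y.coh p q ≤ 0 := by
    intro p _ q _
    by_cases hh : (p : ℤ) + q - n < -2 ∨ 2 < (p : ℤ) + q - n
    · have h4 := h2 p q hh
      have h5 := wt_pos hh
      nlinarith
    · rw [wt_zero (by omega) (by omega), mul_zero, zero_mul]
  have h4 : ∀ p ∈ range (n + 1), ∑ q ∈ range (n + 1),
      (sg ((p : ℤ) + q - n) * wt ((p : ℤ) + q - n)) * del X.coh Y.coh p q ≤ 0 :=
    fun p hp => Finset.sum_nonpos (h3 p hp)
  have h5 := (Finset.sum_eq_zero_iff_of_nonpos h4).1 h1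
  have hp : (p.toNat : ℤ) = p := Int.toNat_of_nonneg (by omega)
  have hq : (q.toNat : ℤ) = q := Int.toNat_of_nonneg (by omega)
  have h6 := h5 p.toNat (by rw [mem_range]; omega)
  have h7 := (Finset.sum_eq_zero_iff_of_nonpos (h3 p.toNat (by rw [mem_range]; omega))).1 h6
    q.toNat (by rw [mem_range]; omega)
  rw [hp, hq] at h7
  have h8 := wt_pos hpq
  have h9 : sg (p + q - n) ≠ 0 := by
    unfold sg
    split_ifs <;> norm_num
  rcases mul_eq_zero.1 h7 with h10 | h10
  · rcases mul_eq_zero.1 h10 with h11 | h11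
    · exact absurd h11 h9
    · exact absurd h11 h8.ne'
  · exact h10

/-- if the differences vanish away from the middle, they vanish -/
theorem inner_zero {X Y : KRing n} (Φ : FM X Y)
    (hout : ∀ p q : ℤ, (p + q - n < -2 ∨ 2 < p + q - n) → del X Y p q = 0) (p q : ℤ) :
    del X Y p q = 0 := by
  -- the degrees `n - 2` and `n + 2`
  have key2 : ∀ p q : ℤ, p + q - n = -2 → del X Y p q = 0 := by
    intro p q hpq
    by_cases hbox : p < 0 ∨ q < 0 ∨ (n : ℤ) < p ∨ (n : ℤ) < q
    · exact del_out _ _ hbox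
    obtain ⟨a, ha⟩ : ∃ a : ℕ, (a : ℤ) = p + 1 := ⟨(p + 1).toNat, by omega⟩
    obtain ⟨b, hb⟩ : ∃ b : ℕ, (b : ℤ) = q + 1 := ⟨(q + 1).toNat, by omega⟩
    have h1 := (Φ.hodge_sums a b (by omega)).1
    have h2 : ∑ i ∈ range n, del X Y (a - 1 - 2 * i) (b - 1 - 2 * i) = 0 := by
      unfold del
      rw [Finset.sum_sub_distrib, sub_eq_zero]
      exact_mod_cast h1
    rw [Finset.sum_eq_single 0] at h2
    · rw [← h2]
      congr 1
      · push_cast
        omega
      · push_cast
        omega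
    · intro i _ hi
      apply hout
      omega
    · intro h0
      rw [mem_range] at h0
      apply del_out
      omega
  have key2' : ∀ p q : ℤ, p + q - n = 2 → del X Y p q = 0 := by
    intro p q hpq
    rw [del_dual]
    exact key2 _ _ (by omega)
  -- the column of `(p, q)`
  by_cases hbox : p < 0 ∨ q < 0 ∨ (n : ℤ) < p ∨ (n : ℤ) < q
  · exact del_out _ _ hbox
  have h1 := col_zero Φ (p - q)
  rcases lt_trichotomy (p + q - n) 0 with hneg | hzero | hpos
  · by_cases h2 : p + q - n < -2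
    · exact hout p q (Or.inl h2)
    by_cases h3 : p + q - n = -2
    · exact key2 p q h3
    have h4 : p + q - n = -1 := by omega
    rw [Finset.sum_eq_add_of_mem q (q + 1) (by rw [mem_Icc]; omega) (by rw [mem_Icc]; omega)
      (by omega)] at h1
    · rw [show p - q + q = p by ring, show p - q + (q + 1) = p + 1 by ring] at h1
      have h5 : del X Y (p + 1) (q + 1) = del X Y p q := by
        rw [del_dual X Y p q]
        congr 1
        · omega
        · omega
      rw [h5] at h1
      omega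
    · intro k _ hk
      apply hout
      omega
  · rw [Finset.sum_eq_single q] at h1
    · rw [show p - q + q = p by ring] at h1
      exact h1
    · intro k _ hk
      by_cases h2 : p - q + k + k - n = -2
      · exact key2 _ _ h2
      by_cases h3 : p - q + k + k - n = 2
      · exact key2' _ _ h3
      apply hout
      omega
    · intro h0
      rw [mem_Icc] at h0
      omega
  · by_cases h2 : 2 < p + q - n
    · exact hout p q (Or.inr h2)
    by_cases h3 : p + q - n = 2
    · exact key2' p q h3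
    have h4 : p + q - n = 1 := by omega
    rw [Finset.sum_eq_add_of_mem (q - 1) q (by rw [mem_Icc]; omega) (by rw [mem_Icc]; omega)
      (by omega)] at h1
    · rw [show p - q + q = p by ring, show p - q + (q - 1) = p - 1 by ring] at h1
      have h5 : del X Y (p - 1) (q - 1) = del X Y p q := by
        rw [del_dual X Y p q]
        congr 1
        · omega
        · omega
      rw [h5] at h1
      omega
    · intro k _ hk
      apply hout
      omega

/-- the degrees zero and one -/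
theorem low_zero {X Y : Variety n} (h : Equivalent X Y) (p q : ℤ) (hpq : p + q < 2) :
    del X.coh Y.coh p q = 0 := by
  by_cases hbox : p < 0 ∨ q < 0 ∨ (n : ℤ) < p ∨ (n : ℤ) < q
  · exact del_out _ _ hbox
  have h1 : del X.coh Y.coh 1 0 = 0 := by
    have h2 : X.coh.h 1 0 = Y.coh.h 1 0 := h.2
    unfold del
    omega
  have h0 : del X.coh Y.coh 0 0 = 0 := by
    unfold del
    rw [X.coh.h00, Y.coh.h00, sub_self]
  have h3 : (p = 0 ∧ q = 0) ∨ (p = 1 ∧ q = 0) ∨ (p = 0 ∧ q = 1) := by omega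
  rcases h3 with ⟨rfl, rfl⟩ | ⟨rfl, rfl⟩ | ⟨rfl, rfl⟩
  · exact h0
  · exact h1
  · rw [del_swap]
    exact h1

/-- The comparison theorem. -/
theorem comparison {X Y : Variety n} (h : SemiampleEquivalent n X Y)
    (hle : ∀ p q : ℤ, 2 ≤ p + q → p + q ≤ n - 3 → Even (p + q - n) → X.h p q ≤ Y.h p q)
    (hge : ∀ p q : ℤ, 2 ≤ p + q → p + q ≤ n - 3 → Odd (p + q - n) → Y.h p q ≤ X.h p q)
    (p q : ℤ) : X.h p q = Y.h p q := by
  obtain ⟨⟨Φ⟩, -⟩ := h.equivalent
  have h1 := inner_zero Φ (outer_zero h (by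
    intro p q hpq
    rcases lt_or_ge (p + q) 2 with hlow | hlow
    · rw [low_zero h.equivalent p q hlow, mul_zero]
    unfold sg del
    by_cases hh : (p + q - n) % 2 = 0
    · have h2 : X.coh.h p q ≤ Y.coh.h p q := hle p q hlow hpq (Int.even_iff.2 hh)
      rw [if_pos hh]
      omega
    · have h2 : Y.coh.h p q ≤ X.coh.h p q :=
        hge p q hlow hpq (Int.not_even_iff_odd.1 fun hc => hh (Int.even_iff.1 hc))
      rw [if_neg hh]
      omega)) p q
  unfold del at h1
  have h2 : X.coh.h p q = Y.coh.h p q := by omega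
  exact h2

/-- the diagonal Hodge numbers are positive -/
theorem diag_pos (X : KRing n) {p : ℤ} (h0 : 0 ≤ p) (h1 : p ≤ n) : 1 ≤ X.h p p := by
  obtain ⟨k, rfl⟩ := Int.eq_ofNat_of_zero_le h0
  have hk : k ≤ n := by exact_mod_cast h1
  have hne : (1 : X.R) ≠ 0 := by
    intro h10
    have h2 : X.H (0, 0) = ⊥ := by
      rw [Submodule.eq_bot_iff]
      intro x _
      rw [← mul_one x, h10, mul_zero]
    have h3 := X.conn
    rw [h2, finrank_bot] at h3
    exact absurd h3 (by norm_num)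
  have h2 : X.ω ^ n ≠ 0 := by
    intro h3
    have h4 := X.hl_inj 0 0 n (by ring) 1 X.one_mem (by rw [h3, zero_mul])
    exact hne h4
  have h3 : X.ω ^ k ≠ 0 := by
    intro h4
    apply h2
    obtain ⟨m, hm⟩ : ∃ m : ℕ, n = m + k := ⟨n - k, (Nat.sub_add_cancel hk).symm⟩
    calc X.ω ^ n = X.ω ^ (m + k) := congrArg (fun i => X.ω ^ i) hm
      _ = 0 := by rw [pow_add, h4, mul_zero]
  have h4 : X.ω ^ k ∈ X.H ((k : ℤ), (k : ℤ)) := X.pow_mem X.ω_mem k
  unfold KRing.h
  rw [Nat.one_le_iff_ne_zero]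
  intro h5
  rw [Submodule.finrank_eq_zero] at h5
  rw [h5, Submodule.mem_bot] at h4
  exact h3 h4

/-- The cohomology outside the degrees `n - 2`, `n`, `n + 2` is as small as possible. -/
def Variety.Small (X : Variety n) : Prop :=
  ∀ p q : ℤ, 0 ≤ p → p ≤ n → 0 ≤ q → q ≤ n → p + q ≠ n - 2 → p + q ≠ n → p + q ≠ n + 2 →
    X.h p q = if p = q then 1 else 0

theorem small_equal {X Y : Variety n} (h : SemiampleEquivalent n X Y) (hX : X.Small) (p q : ℤ) :
    X.h p q = Y.h p q := by
  obtain ⟨⟨Φ⟩, -⟩ := h.equivalent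
  -- `X` has the smaller numbers
  have hle : ∀ p q : ℤ, p + q ≠ n - 2 → p + q ≠ n → p + q ≠ n + 2 →
      del X.coh Y.coh p q ≤ 0 := by
    intro p q h1 h2 h3
    by_cases hbox : p < 0 ∨ q < 0 ∨ (n : ℤ) < p ∨ (n : ℤ) < q
    · rw [del_out _ _ hbox]
    have h4 : X.coh.h p q = if p = q then 1 else 0 :=
      hX p q (by omega) (by omega) (by omega) (by omega) h1 h2 h3
    unfold del
    rw [h4]
    split_ifs with h5
    · subst h5
      have := diag_pos Y.coh (p := p) (by omega) (by omega)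
      omega
    · omega
  refine comparison h ?_ ?_ p q
  · intro p q _ h1 _
    have h2 := hle p q (by omega) (by omega) (by omega)
    unfold del at h2
    show X.coh.h p q ≤ Y.coh.h p q
    omega
  · intro p q _ h1 hodd
    have h2 : (p + q - n) % 2 = 1 := Int.odd_iff.1 hodd
    -- the column consists of differences which are at most zero
    by_cases hbox : p < 0 ∨ q < 0 ∨ (n : ℤ) < p ∨ (n : ℤ) < q
    · have h5 := del_out X.coh Y.coh hbox
      unfold del at h5
      show Y.coh.h p q ≤ X.coh.h p q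
      omega
    have h3 := (Finset.sum_eq_zero_iff_of_nonpos (fun k _ => hle (p - q + k) k
      (by omega) (by omega) (by omega))).1 (col_zero Φ (p - q)) q (by rw [mem_Icc]; omega)
    rw [show p - q + q = p by ring] at h3
    unfold del at h3
    show Y.coh.h p q ≤ X.coh.h p q
    omega

theorem wt_floor (j : ℤ) : wt j = 8 * (j ^ 2 / 8) := by
  unfold wt rr
  rcases Int.emod_two_eq_zero_or_one j with h | h
  · rw [if_pos h]
    by_cases h4 : j % 4 = 2
    · rw [if_pos h4]
      obtain ⟨m, rfl⟩ : ∃ m : ℤ, j = 4 * m + 2 := ⟨j / 4, by omega⟩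
      have : (4 * m + 2) ^ 2 = 8 * (2 * m ^ 2 + 2 * m) + 4 := by ring
      rw [this]
      omega
    · rw [if_neg h4]
      obtain ⟨m, rfl⟩ : ∃ m : ℤ, j = 4 * m := ⟨j / 4, by omega⟩
      have : (4 * m) ^ 2 = 8 * (2 * m ^ 2) := by ring
      rw [this]
      omega
  · rw [if_neg (by omega)]
    obtain ⟨m, rfl⟩ : ∃ m : ℤ, j = 2 * m + 1 := ⟨j / 2, by omega⟩
    obtain ⟨t, ht⟩ : ∃ t : ℤ, m * (m + 1) = 2 * t := by
      obtain ⟨t, ht⟩ := Int.even_mul_succ_self m
      exact ⟨t, by rw [ht]; ring⟩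
    have : (2 * m + 1) ^ 2 = 8 * t + 1 := by linear_combination 4 * ht
    rw [this]
    omega

/-- an alternating sum of the Betti numbers is invariant -/
theorem floor_sum {X Y : Variety n} (h : SemiampleEquivalent n X Y) :
    ∑ p ∈ range (n + 1), ∑ q ∈ range (n + 1),
      (-1 : ℤ) ^ (p + q) * (((p : ℤ) + q - n) ^ 2 / 8) * X.h p q =
    ∑ p ∈ range (n + 1), ∑ q ∈ range (n + 1),
      (-1 : ℤ) ^ (p + q) * (((p : ℤ) + q - n) ^ 2 / 8) * Y.h p q := by
  have h1 := wt_sum_zero h
  have h2 : 8 * (∑ p ∈ range (n + 1), ∑ q ∈ range (n + 1),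
      (-1 : ℤ) ^ (p + q) * (((p : ℤ) + q - n) ^ 2 / 8) * X.h p q -
    ∑ p ∈ range (n + 1), ∑ q ∈ range (n + 1),
      (-1 : ℤ) ^ (p + q) * (((p : ℤ) + q - n) ^ 2 / 8) * Y.h p q) = 0 := by
    rw [← h1]
    simp only [← Finset.sum_sub_distrib, Finset.mul_sum]
    refine Finset.sum_congr rfl fun p _ => Finset.sum_congr rfl fun q _ => ?_
    rw [wt_floor]
    unfold del
    show 8 * ((-1 : ℤ) ^ (p + q) * (((p : ℤ) + q - n) ^ 2 / 8) * X.coh.h p q -
      (-1 : ℤ) ^ (p + q) * (((p : ℤ) + q - n) ^ 2 / 8) * Y.coh.h p q) = _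
    ring
  linarith

end Pool.Agent.V8H84.SF
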