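import Pool.Agent.W539.DI.Cor

/-!
# Derived equivalent varieties with semiample canonical or anticanonical bundle: definitions
-/

set_option autoImplicit false

namespace Pool.Agent.V8H84.SF

open Pool.Agent.W539.DI Finset

/-- The Todd class of degree `n ≤ 5`, a universal polynomial in the Chern classes `c k`. -/
noncomputable def todd {R : Type} [Ring R] [Algebra ℂ R] (c : ℕ → R) : ℕ → R
  | 0 => 1
  | 1 => (1 / 2 : ℂ) • c 1
  | 2 => (1 / 12 : ℂ) • (c 1 * c 1 + c 2)
  | 3 => (1 / 24 : ℂ) • (c 1 * c 2)
  | 4 => (1 / 720 : ℂ) • (-(c 1 * c 1 * c 1 * c 1) + (4 : ℂ) • (c 1 * c 1 * c 2) +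
      (3 : ℂ) • (c 2 * c 2) + c 1 * c 3 - c 4)
  | 5 => (1 / 1440 : ℂ) • (-(c 1 * c 1 * c 1 * c 2) + (3 : ℂ) • (c 1 * c 2 * c 2) +
      c 1 * c 1 * c 3 - c 1 * c 4)
  | _ + 6 => 0

/-- The cohomology of a smooth projective complex variety of dimension `n`, with its Chern classes:
the Hodge structure, the cup product, a Kähler class, ... (`KRing n`), and the Chern classes `cc k`
of the tangent bundle, with the theorem of Gauss and Bonnet, the formula of Libgober and Wood and,
if `n ≤ 5`, the theorem of Riemann and Roch for the structure sheaf (all of them are special cases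
of the theorem of Hirzebruch, Riemann and Roch). -/
structure Variety (n : ℕ) where
  /-- the cohomology ring with its Hodge decomposition -/
  coh : KRing n
  /-- the Chern classes of the tangent bundle -/
  cc : ℕ → coh.R
  cc_zero : cc 0 = 1
  /-- the first Chern class is the one in `KRing` (it occurs in the Mukai pairing) -/
  cc_one : cc 1 = coh.c
  cc_mem : ∀ k : ℕ, cc k ∈ coh.H (k, k)
  /-- the theorem of Gauss and Bonnet -/
  gauss_bonnet : ∑ p ∈ range (n + 1), ∑ q ∈ range (n + 1),
    (-1 : ℂ) ^ (p + q) * (coh.h p q : ℂ) = coh.tr (cc n)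
  /-- the formula of Libgober and Wood -/
  libgober_wood : ∑ p ∈ range (n + 1), ∑ q ∈ range (n + 1),
    (-1 : ℂ) ^ (p + q) * ((p : ℂ) - n / 2) ^ 2 * (coh.h p q : ℂ) =
      (n / 12 : ℂ) * coh.tr (cc n) + (1 / 6 : ℂ) * coh.tr (cc 1 * cc (n - 1))
  /-- the theorem of Riemann and Roch for the structure sheaf -/
  riemann_roch : n ≤ 5 → ∑ q ∈ range (n + 1), (-1 : ℂ) ^ q * (coh.h 0 q : ℂ) =
    coh.tr (todd cc n)

/-- The Hodge number `h^{p,q}`. -/
noncomputable def Variety.h {n : ℕ} (X : Variety n) (p q : ℤ) : ℕ := X.coh.h p q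

/-- `E` is a smooth divisor in `X` with the class `s c₁(X)`, for a real number `s`: `res` is the
restriction of cohomology classes from `X` to `E`. -/
structure Divisor {n : ℕ} (X : Variety (n + 1)) (E : Variety n) (s : ℝ) where
  /-- the restriction to `E` -/
  res : X.coh.R →ₐ[ℂ] E.coh.R
  res_mem : ∀ (p q : ℤ) (x : X.coh.R), x ∈ X.coh.H (p, q) → res x ∈ E.coh.H (p, q)
  /-- the integral over `E` is the integral over `X` of the product with the class of `E` -/
  projection : ∀ x, E.coh.tr (res x) = X.coh.tr ((s : ℂ) • (X.cc 1 * x))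
  /-- adjunction: `c(X)` restricted to `E` is the product of `c(E)` and `1 + [E]` -/
  adjunction : ∀ k, res (X.cc (k + 1)) = E.cc (k + 1) + (s : ℂ) • (res (X.cc 1) * E.cc k)
  /-- an anticanonical divisor is used only if it is the fibre of a fibration over a curve -/
  fibre : s = 1 → res (X.cc 1) = 0

/-- The cohomological shape of an equivalence `D(X) ≃ D(Y)`: the isomorphism of cohomology which
preserves the difference `p - q` of the Hodge types and the Mukai pairing (Mukai, Orlov,
Caldararu), and the equality of the irregularities (Popa and Schnell). -/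
def Equivalent {n : ℕ} (X Y : Variety n) : Prop :=
  Nonempty (FM X.coh Y.coh) ∧ X.h 1 0 = Y.h 1 0

/-- The cohomological shape of an equivalence `D(X) ≃ D(Y)`, where `X` and `Y` are varieties of
dimension `n` whose canonical (or anticanonical) bundles are semiample: either the first Chern
classes of `X` and `Y` vanish, or `n ≤ 2`, or `X` and `Y` contain smooth divisors `E` and `E'` with
classes `s c₁(X)` and `s c₁(Y)`, `s ≠ 0` (corresponding members of the systems `|m K|` or `|-m K|`,
`m ≥ 2`, or corresponding fibres of the Iitaka fibrations if these are fibrations over curves),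
which are derived equivalent in the same sense (Toda). -/
def SemiampleEquivalent : ∀ n : ℕ, Variety n → Variety n → Prop
  | 0, X, Y => Equivalent X Y
  | 1, X, Y => Equivalent X Y
  | 2, X, Y => Equivalent X Y
  | n + 3, X, Y => Equivalent X Y ∧ ((X.cc 1 = 0 ∧ Y.cc 1 = 0) ∨
      ∃ (s : ℝ) (E E' : Variety (n + 2)), s ≠ 0 ∧ Nonempty (Divisor X E s) ∧
        Nonempty (Divisor Y E' s) ∧ SemiampleEquivalent (n + 2) E E')

end Pool.Agent.V8H84.SF
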